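import Pool.Agent.H626R2.Loc.GDefs
import Pool.Agent.H227R2.LocC7

/-! Task S8 (helper602): explicit points with an interpolated base point. -/

set_option autoImplicit false

namespace Pool.Agent.H626R2.Loc

open MvPolynomial

section S8

variable {K : Type} [Field K] {n : ℕ}

namespace S8

theorem psi_natDegree' (N v : ℕ) : (psi K N v).natDegree ≤ N := by
  unfold psi
  refine Polynomial.natDegree_sum_le_of_forall_le _ _ fun i hi => ?_
  refine (Polynomial.natDegree_C_mul_le _ _).trans ?_
  have h1 := descPochhammer_natDegree K i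
  rw [h1]
  exact Nat.lt_succ_iff.1 (Finset.mem_range.1 hi)

theorem psi_eval' [CharZero K] (N v u : ℕ) : (psi K N v).eval (u : K) = (psiN N v u : K) := by
  unfold psi psiN
  rw [Polynomial.eval_finsetSum, Nat.cast_sum]
  refine Finset.sum_congr rfl fun i _ => ?_
  rw [Polynomial.eval_mul, Polynomial.eval_C, descPochhammer_eval_eq_descFactorial,
    Nat.descFactorial_eq_factorial_mul_choose]
  have h : (i.factorial : K) ≠ 0 := Nat.cast_ne_zero.2 i.factorial_ne_zero
  push_cast
  field_simp

/-- all coefficients have degree at most `d` -/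
def Bd {σ : Type} (d : ℕ) (P : MvPolynomial σ (Polynomial K)) : Prop :=
  ∀ m, (P.coeff m).natDegree ≤ d

theorem bd_mono {σ : Type} {d e : ℕ} {P : MvPolynomial σ (Polynomial K)} (h : Bd d P)
    (hde : d ≤ e) : Bd e P := fun m => (h m).trans hde

theorem bd_add {σ : Type} {d : ℕ} {P Q : MvPolynomial σ (Polynomial K)} (h : Bd d P)
    (h' : Bd d Q) : Bd d (P + Q) := by
  intro m
  rw [coeff_add]
  exact (Polynomial.natDegree_add_le _ _).trans (max_le (h m) (h' m))

theorem bd_neg {σ : Type} {d : ℕ} {P : MvPolynomial σ (Polynomial K)} (h : Bd d P) :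
    Bd d (-P) := by
  intro m
  rw [coeff_neg, Polynomial.natDegree_neg]
  exact h m

theorem bd_sum {σ ι : Type} {d : ℕ} (s : Finset ι) (P : ι → MvPolynomial σ (Polynomial K))
    (h : ∀ i ∈ s, Bd d (P i)) : Bd d (∑ i ∈ s, P i) := by
  intro m
  rw [coeff_sum]
  exact Polynomial.natDegree_sum_le_of_forall_le _ _ fun i hi => h i hi m

theorem bd_mul {σ : Type} {d e : ℕ} {P Q : MvPolynomial σ (Polynomial K)} (h : Bd d P)
    (h' : Bd e Q) : Bd (d + e) (P * Q) := by
  classical
  intro m
  rw [coeff_mul]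
  refine Polynomial.natDegree_sum_le_of_forall_le _ _ fun x _ => ?_
  exact (Polynomial.natDegree_mul_le).trans (Nat.add_le_add (h _) (h' _))

theorem bd_C {σ : Type} {d : ℕ} {c : Polynomial K} (h : c.natDegree ≤ d) :
    Bd d (C c : MvPolynomial σ (Polynomial K)) := by
  classical
  intro m
  rw [coeff_C]
  split_ifs
  · exact h
  · simp

theorem bd_X {σ : Type} (i : σ) : Bd 0 (X i : MvPolynomial σ (Polynomial K)) := by
  classical
  intro m
  rw [coeff_X]
  split_ifs <;> simp

theorem bd_one {σ : Type} : Bd 0 (1 : MvPolynomial σ (Polynomial K)) := by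
  have h : Bd (K := K) (σ := σ) 0 (MvPolynomial.C 1) := bd_C (by simp)
  rwa [map_one] at h

theorem bd_prod {σ ι : Type} (s : Finset ι) (d : ι → ℕ)
    (P : ι → MvPolynomial σ (Polynomial K)) (h : ∀ i ∈ s, Bd (d i) (P i)) :
    Bd (∑ i ∈ s, d i) (∏ i ∈ s, P i) := by
  classical
  induction s using Finset.induction_on with
  | empty => simpa using bd_one
  | insert a s ha ih =>
    rw [Finset.prod_insert ha, Finset.sum_insert ha]
    exact bd_mul (h a (Finset.mem_insert_self a s))
      (ih fun i hi => h i (Finset.mem_insert_of_mem hi))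

theorem bd_pow {σ : Type} {d : ℕ} {P : MvPolynomial σ (Polynomial K)} (h : Bd d P) (k : ℕ) :
    Bd (k * d) (P ^ k) := by
  induction k with
  | zero => simpa using bd_one
  | succ k ih =>
    rw [pow_succ, Nat.succ_mul]
    exact bd_mul ih h

theorem bd_aeval {σ τ : Type} {d : ℕ} (g : σ → MvPolynomial τ (Polynomial K))
    (hg : ∀ m, Bd d (g m)) (f : MvPolynomial σ K) :
    Bd (f.totalDegree * d) (MvPolynomial.aeval g f) := by
  classical
  rw [aeval_def, eval₂_eq]
  refine bd_sum _ _ fun m hm => ?_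
  have h1 : Bd (K := K) (σ := τ) 0 ((algebraMap K (MvPolynomial τ (Polynomial K))) (f.coeff m)) := by
    have e : (algebraMap K (MvPolynomial τ (Polynomial K))) (f.coeff m) =
        MvPolynomial.C (Polynomial.C (f.coeff m)) := rfl
    rw [e]
    exact bd_C (by simp)
  have h2 := bd_mul h1 (bd_prod m.support (fun i => m i * d) (fun i => g i ^ m i)
    fun i _ => bd_pow (hg i) _)
  refine bd_mono h2 ?_
  rw [zero_add, ← Finset.sum_mul]
  exact Nat.mul_le_mul_right _ (le_totalDegree hm)

theorem bd_genG {N T : ℕ} (m : Fin n) : Bd N (genG (base K n N) T m) := by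
  unfold genG
  refine bd_add (bd_C (psi_natDegree' _ _)) ?_
  refine bd_sum _ _ fun l _ => ?_
  have h1 := bd_mul (K := K) (bd_X (Sum.inl l : Fin T ⊕ Fin T))
    (bd_prod (Finset.univ.erase m) (fun _ => 0) (fun j : Fin n =>
      (X (Sum.inr l) - MvPolynomial.C ((j : ℕ) : Polynomial K) :
        MvPolynomial (Fin T ⊕ Fin T) (Polynomial K))) fun j _ => by
      rw [sub_eq_add_neg]
      exact bd_add (bd_X _) (bd_neg (bd_C (by simp))))
  refine bd_mono h1 ?_
  simp

/-- specialization of the parameter -/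
theorem exists_param [CharZero K] {T D N : ℕ} {f : MvPolynomial (Fin n) K}
    (h : evG K (base K n N) T f ≠ 0) (hD : f.totalDegree ≤ D) :
    ∃ u : ℕ, u ≤ N * D ∧
      aeval (fun m : Fin n => C ((psiN N (Nat.nth Nat.Prime m) u : ℕ) : K) + gen K n T m) f ≠ 0 := by
  classical
  obtain ⟨m, hm⟩ := MvPolynomial.ne_zero_iff.1 h
  have h1 : ((evG K (base K n N) T f).coeff m).natDegree ≤ N * D := by
    have h2 := bd_aeval (genG (base K n N) T) bd_genG f m
    refine h2.trans ?_
    rw [Nat.mul_comm]
    exact Nat.mul_le_mul_left _ hD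
  -- a value of the parameter that is not a root
  have h3 : ∃ u : ℕ, u ≤ N * D ∧ ((evG K (base K n N) T f).coeff m).eval (u : K) ≠ 0 := by
    by_contra hcon
    push Not at hcon
    apply hm
    refine Polynomial.eq_zero_of_natDegree_lt_card_of_eval_eq_zero'
      ((evG K (base K n N) T f).coeff m)
      ((Finset.range (N * D + 1)).image (Nat.cast : ℕ → K)) ?_ ?_
    · intro x hx
      obtain ⟨a, ha, rfl⟩ := Finset.mem_image.1 hx
      exact hcon a (Nat.lt_succ_iff.1 (Finset.mem_range.1 ha))
    · rw [Finset.card_image_of_injective _ Nat.cast_injective, Finset.card_range]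
      omega
  obtain ⟨u, hu, hne⟩ := h3
  refine ⟨u, hu, fun h0 => hne ?_⟩
  let φ : Polynomial K →ₐ[K] K := Polynomial.aeval (u : K)
  have hφ : ∀ p, φ p = p.eval (u : K) := fun p => by
    rw [← Polynomial.coe_aeval_eq_eval]
  have h4 : mapAlgHom φ (evG K (base K n N) T f) =
      aeval (fun m : Fin n => C ((psiN N (Nat.nth Nat.Prime m) u : ℕ) : K) + gen K n T m) f := by
    unfold evG
    rw [← AlgHom.comp_apply, comp_aeval]
    congr 2
    funext m
    unfold genG gen
    change mapAlgHom φ _ = _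
    have hC : ∀ c : Polynomial K, mapAlgHom (σ := Fin T ⊕ Fin T) φ (C c) = C (φ c) :=
      fun c => map_C _ _
    have hX : ∀ i : Fin T ⊕ Fin T, mapAlgHom φ (X i) = X i := fun i => map_X _ _
    rw [map_add, hC, hφ, map_sum]
    congr 2
    · exact psi_eval' N _ u
    · funext l
      rw [map_mul, map_prod, hX]
      congr 1
      refine Finset.prod_congr rfl fun j _ => ?_
      rw [map_sub, hX, hC, hφ]
      simp
  have h5 : (mapAlgHom φ (evG K (base K n N) T f)).coeff m =
      φ ((evG K (base K n N) T f).coeff m) := coeff_map _ _ _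
  rw [h4, h0, coeff_zero, hφ] at h5
  exact h5.symm

end S8

open S8 in
/-- S8 (uses S5). -/
theorem exists_gridG [CharZero K] {T D N : ℕ} {f : MvPolynomial (Fin n) K}
    (h : evG K (base K n N) T f ≠ 0) (hD : f.totalDegree ≤ D) :
    ∃ (u : ℕ) (y z : Fin T → ℕ), u ≤ N * D ∧ (∀ l, y l ≤ D) ∧ (∀ l, z l ≤ n * D) ∧
      eval (fun m : Fin n => ((psiN N (Nat.nth Nat.Prime m) u : ℕ) : K) +
        ∑ l, (y l : K) * ∏ j ∈ Finset.univ.erase m, ((z l : K) - ((j : ℕ) : K))) f ≠ 0 := by
  classical
  obtain ⟨u, hu, h'⟩ := exists_param h hD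
  set g' : Fin n → MvPolynomial (Fin T ⊕ Fin T) K :=
    fun m => C ((psiN N (Nat.nth Nat.Prime m) u : ℕ) : K) + gen K n T m with hg'
  let B : Fin T ⊕ Fin T → ℕ := fun i => Sum.elim (fun _ => D) (fun _ => n * D) i
  let S : Fin T ⊕ Fin T → Finset K := fun i => (Finset.range (B i + 1)).image (Nat.cast : ℕ → K)
  have hcard : ∀ i, (S i).card = B i + 1 := fun i => by
    simp only [S]
    rw [Finset.card_image_of_injective _ Nat.cast_injective, Finset.card_range]
  have hdl : ∀ (l : Fin T) (m : Fin n), (g' m).degreeOf (Sum.inl l) ≤ 1 := by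
    intro l m
    refine (degreeOf_add_le _ _ _).trans ?_
    rw [degreeOf_C]
    exact max_le (Nat.zero_le _) (C7_gen_inl T l m)
  have hdr : ∀ (l : Fin T) (m : Fin n), (g' m).degreeOf (Sum.inr l) ≤ n := by
    intro l m
    refine (degreeOf_add_le _ _ _).trans ?_
    rw [degreeOf_C]
    exact max_le (Nat.zero_le _) (C7_gen_inr T l m)
  have hex : ∃ x : Fin T ⊕ Fin T → K, (∀ i, x i ∈ S i) ∧ eval x (aeval g' f) ≠ 0 := by
    by_contra hcon
    push Not at hcon
    apply h'
    refine MvPolynomial.eq_zero_of_eval_zero_at_prod_finset _ S ?_ hcon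
    intro i
    rw [hcard]
    refine Nat.lt_succ_of_le ?_
    rcases i with l | l
    · refine (C7_degreeOf_aeval _ _ 1 (fun m => hdl l m) f).trans ?_
      simp only [B, Sum.elim_inl]
      omega
    · refine (C7_degreeOf_aeval _ _ n (fun m => hdr l m) f).trans ?_
      simp only [B, Sum.elim_inr]
      nlinarith
  obtain ⟨x, hx, hne⟩ := hex
  have hx' : ∀ i, ∃ a : ℕ, a ≤ B i ∧ (a : K) = x i := by
    intro i
    obtain ⟨a, ha, hax⟩ := Finset.mem_image.1 (hx i)
    exact ⟨a, Nat.lt_succ_iff.1 (Finset.mem_range.1 ha), hax⟩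
  choose a ha hax using hx'
  refine ⟨u, fun l => a (Sum.inl l), fun l => a (Sum.inr l), hu, fun l => ha _, fun l => ha _, ?_⟩
  have heq : eval x (aeval g' f) =
      eval (fun m : Fin n => ((psiN N (Nat.nth Nat.Prime m) u : ℕ) : K) +
        ∑ l, ((a (Sum.inl l) : ℕ) : K) *
        ∏ j ∈ Finset.univ.erase m, (((a (Sum.inr l) : ℕ) : K) - ((j : ℕ) : K))) f := by
    have h1 : eval x (aeval g' f) = eval (fun m => eval x (g' m)) f := by
      rw [← MvPolynomial.coe_aeval_eq_eval, ← MvPolynomial.coe_aeval_eq_eval]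
      change aeval x (aeval g' f) = _
      rw [← AlgHom.comp_apply, comp_aeval]
      rfl
    rw [h1]
    congr 2
    funext m
    simp only [hg']
    unfold gen
    rw [map_add, eval_C, map_sum]
    congr 1
    refine Finset.sum_congr rfl fun l _ => ?_
    rw [map_mul, map_prod, eval_X, hax]
    congr 1
    refine Finset.prod_congr rfl fun j _ => ?_
    rw [map_sub, eval_X, eval_C, hax]
  rw [← heq]
  exact hne

end S8

end Pool.Agent.H626R2.Loc
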