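import Mathlib
import Pool.Agent.H925R3.DD.Stubs
import Pool.Agent.H475R2.DC_RED
import Pool.Agent.H439DC.DC_REDA
import Pool.Agent.H816R2.DC_REDB
import Pool.Agent.Helper171.DC_REDC

/-! Task REDK of project DD: reduction with respect to a valuation ring is a homomorphism. -/

set_option autoImplicit false

namespace Pool.Agent.H602R2.DD_REDK

open Pool.Agent.H925R3.DC Pool.Agent.H925R3.DD Pool.Agent.H475R2.DC_RED

theorem redk' (h1 : REDA) (h2 : REDB) (h3 : REDC) : REDK := by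
  intro K k _ _ _ _ O φ hV h20 a b hdisc
  obtain ⟨hval, hunit⟩ := hV
  have ea : φ (a : O) = (a : k) := map_intCast φ a
  have eb : φ (b : O) = (b : k) := map_intCast φ b
  have ea' : (((a : O)) : K) = (a : K) := by push_cast; rfl
  have eb' : (((b : O)) : K) = (b : K) := by push_cast; rfl
  have hd : 4 * φ (a : O) ^ 3 + 27 * φ (b : O) ^ 2 ≠ 0 := by
    rw [ea, eb]
    intro h
    apply hdisc
    push_cast
    exact h
  unfold IsRed
  rw [← ea, ← eb, ← ea', ← eb']
  refine ⟨⟨⟨redF φ hval h20 (a : O) (b : O) hd, redF_zero _ _ _ _ _ _⟩,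
    redF_add φ hval h20 (a : O) (b : O) hd h1 h2 h3 hunit⟩,
    redF_zero φ hval h20 (a : O) (b : O) hd, ?_⟩
  intro x y h
  constructor
  · intro hx
    exact redF_not φ hval h20 (a : O) (b : O) hd x y h hx
  · intro hx
    have hy' : y ∈ O := y_mem hval (a : O) (b : O) h hx
    exact ⟨hy', red_ns φ h20 (a : O) (b : O) hd ⟨x, hx⟩ ⟨y, hy'⟩ h,
      redF_mem φ hval h20 (a : O) (b : O) hd ⟨x, hx⟩ ⟨y, hy'⟩ h _⟩

theorem redk : REDK :=
  redk' Pool.Agent.H439DC.reda Pool.Agent.H816R2.DCREDB.redb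
    Pool.Agent.Helper171.DCREDC.redc

end Pool.Agent.H602R2.DD_REDK
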