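import Pool.Agent.H626R2.Loc.Defs

/-! Task V9 (helper602): places with a given centre. -/

set_option autoImplicit false

namespace Pool.Agent.H626R2.Loc

/-- V9. -/
theorem exists_place {A Ω : Type} [CommRing A] [IsDomain A] [Field Ω] [Algebra A Ω]
    (hinj : Function.Injective (algebraMap A Ω)) (P : Ideal A) (hP : P.IsPrime) :
    ∃ O : ValuationSubring Ω, (∀ a, algebraMap A Ω a ∈ O) ∧
      ∀ a, O.valuation (algebraMap A Ω a) < 1 ↔ a ∈ P := by
  have hu : ∀ y : P.primeCompl, IsUnit (algebraMap A Ω y) := by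
    intro y
    rw [isUnit_iff_ne_zero]
    intro h0
    have h1 : (y : A) = 0 := hinj (by rw [h0, map_zero])
    exact y.2 (by rw [h1]; exact P.zero_mem)
  let f : Localization.AtPrime P →+* Ω := IsLocalization.lift hu
  have hf : ∀ a, f (algebraMap A (Localization.AtPrime P) a) = algebraMap A Ω a := fun a =>
    IsLocalization.lift_eq hu a
  obtain ⟨O, h, hloc⟩ := IsLocalRing.exists_factor_valuationRing f
  have hmem : ∀ a, algebraMap A Ω a ∈ O := by
    intro a
    rw [← hf a]
    exact h _
  refine ⟨O, hmem, fun a => ?_⟩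
  have h1 : O.valuation (algebraMap A Ω a) ≤ 1 := (O.valuation_le_one_iff _).mpr (hmem a)
  have h2 : IsUnit (⟨algebraMap A Ω a, hmem a⟩ : O) ↔ O.valuation (algebraMap A Ω a) = 1 :=
    O.valuation_eq_one_iff ⟨algebraMap A Ω a, hmem a⟩
  have h3 : IsUnit (⟨algebraMap A Ω a, hmem a⟩ : O) ↔ a ∉ P := by
    have h4 : IsUnit (algebraMap A (Localization.AtPrime P) a) ↔ a ∈ P.primeCompl :=
      IsLocalization.AtPrime.isUnit_to_map_iff (Localization.AtPrime P) P a
    have h5 : f.codRestrict O.toSubring h (algebraMap A (Localization.AtPrime P) a) =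
        (⟨algebraMap A Ω a, hmem a⟩ : O.toSubring) := Subtype.ext (hf a)
    constructor
    · intro hu2
      have h6 : IsUnit (f.codRestrict O.toSubring h (algebraMap A (Localization.AtPrime P) a)) := by
        rw [h5]
        exact hu2
      exact h4.mp (hloc.map_nonunit _ h6)
    · intro ha
      have h6 := (h4.mpr ha).map (f.codRestrict O.toSubring h)
      rw [h5] at h6
      exact h6
  rw [lt_iff_le_and_ne]
  constructor
  · rintro ⟨_, hne⟩
    by_contra ha
    exact hne (h2.mp (h3.mpr ha))
  · intro ha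
    exact ⟨h1, fun he => h3.mp (h2.mpr he) ha⟩

end Pool.Agent.H626R2.Loc
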