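import Pool.Agent.H306R2.RZ.Defs2

set_option autoImplicit false

/-!
# C8: size of the shift and of the factor (helper602)
-/

namespace H602RZ

open Finset Filter Topology MeasureTheory
open Pool.Agent.H306R2.RZ

theorem g0_pos : 0 < g0 := by
  have h : g0 = (1 / Real.pi) ^ (1 / 4 : ℝ) * Real.Gamma (1 / 4) := by
    rw [← Real.integral_rpow_mul_exp_neg_mul_Ioi (by norm_num : (0 : ℝ) < 1 / 4) Real.pi_pos]
    unfold g0
    refine setIntegral_congr_fun measurableSet_Ioi fun v _ => ?_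
    show Real.exp (-(Real.pi * v)) * v ^ (-(3 / 4) : ℝ) = v ^ ((1 / 4 : ℝ) - 1) * Real.exp (-(Real.pi * v))
    rw [mul_comm]
    norm_num
  rw [h]
  have h1 := Real.Gamma_pos_of_pos (by norm_num : (0 : ℝ) < 1 / 4)
  have h2 := Real.pi_pos
  positivity

theorem gm_pos {σ : ℝ} (h : 0 < σ) : 0 < gm σ := by
  unfold gm
  have h1 := Real.Gamma_pos_of_pos (half_pos h)
  have h2 := Real.pi_pos
  positivity

theorem gm_cont {σ : ℝ} (h : 0 < σ) : ContinuousAt gm σ := by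
  unfold gm
  refine ContinuousAt.mul ?_ ?_
  · exact ContinuousAt.rpow continuousAt_const (continuousAt_id.div_const 2).neg
      (Or.inl Real.pi_ne_zero)
  · have h1 : ContinuousAt Real.Gamma (σ / 2) := by
      refine (Real.differentiableAt_Gamma fun m => ?_).continuousAt
      have : (0 : ℝ) ≤ m := Nat.cast_nonneg m
      intro h2
      linarith
    exact ContinuousAt.comp (f := fun σ : ℝ => σ / 2) h1 (continuousAt_id.div_const 2)

theorem supp_bounds (F : ℝ → ℝ) (hF : TF F) :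
    ∃ A1 A2 : ℝ, 0 < A1 ∧ A1 ≤ A2 ∧ ∀ v, F v ≠ 0 → A1 ≤ v ∧ v ≤ A2 := by
  have hc : IsCompact (tsupport F) := hF.cpt
  rcases (tsupport F).eq_empty_or_nonempty with h | h
  · refine ⟨1, 1, one_pos, le_rfl, fun v hv => ?_⟩
    have : v ∈ tsupport F := subset_tsupport F hv
    rw [h] at this
    exact absurd this (Set.notMem_empty v)
  · obtain ⟨A1, h1⟩ := hc.exists_isLeast h
    obtain ⟨A2, h2⟩ := hc.exists_isGreatest h
    refine ⟨A1, A2, hF.pos h1.1, h1.2 h2.1, fun v hv => ?_⟩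
    have hv' : v ∈ tsupport F := subset_tsupport F hv
    exact ⟨h1.2 hv', h2.2 hv'⟩

theorem C8 (F : ℝ → ℝ) (hF : TF F) : ∃ c1 c2 b L0 : ℝ, 0 < c1 ∧ 0 < b ∧ ∀ L : ℝ, L0 ≤ L → ∀ d : ℕ,
    F ((d : ℝ) / Real.exp L) ≠ 0 → |be L d| ≤ b / L ∧
      ∀ x : ℝ, 0 ≤ x → x ≤ L / 2 → c1 ≤ Kd L d x ∧ Kd L d x ≤ c2 := by
  obtain ⟨A1, A2, hA1, hA12, hA⟩ := supp_bounds F hF
  set Ψ : ℝ × ℝ → ℝ := fun p => (8 * p.1) ^ (p.2 / 2) * gm (1 / 2 + p.2) / g0 with hΨ
  have hK : IsCompact (Set.Icc A1 A2 ×ˢ Set.Icc (0 : ℝ) (1 / 2)) :=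
    isCompact_Icc.prod isCompact_Icc
  have hne : (Set.Icc A1 A2 ×ˢ Set.Icc (0 : ℝ) (1 / 2)).Nonempty :=
    ⟨(A1, 0), ⟨⟨le_rfl, hA12⟩, ⟨le_rfl, by norm_num⟩⟩⟩
  have hcont : ContinuousOn Ψ (Set.Icc A1 A2 ×ˢ Set.Icc (0 : ℝ) (1 / 2)) := by
    rintro ⟨v, s⟩ ⟨⟨hv, -⟩, ⟨hs, -⟩⟩
    have hv0 : 0 < v := lt_of_lt_of_le hA1 hv
    have hs0 : (0 : ℝ) ≤ s := hs
    refine ContinuousAt.continuousWithinAt ?_
    refine ContinuousAt.div_const (ContinuousAt.mul ?_ ?_) _
    · refine ContinuousAt.rpow (continuousAt_const.mul continuousAt_fst)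
        (continuousAt_snd.div_const 2) (Or.inl ?_)
      show 8 * v ≠ 0
      positivity
    · exact ContinuousAt.comp (f := fun p : ℝ × ℝ => 1 / 2 + p.2) (x := (v, s))
        (gm_cont (by show 0 < 1 / 2 + s; positivity)) (continuousAt_const.add continuousAt_snd)
  obtain ⟨p1, hp1, hmin⟩ := hK.exists_isMinOn hne hcont
  obtain ⟨p2, hp2, hmax⟩ := hK.exists_isMaxOn hne hcont
  have hpos : 0 < Ψ p1 := by
    have h1 : 0 < p1.1 := lt_of_lt_of_le hA1 hp1.1.1
    have h2 : 0 ≤ p1.2 := hp1.2.1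
    have h3 := gm_pos (show 0 < 1 / 2 + p1.2 by positivity)
    have h4 := g0_pos
    show 0 < (8 * p1.1) ^ (p1.2 / 2) * gm (1 / 2 + p1.2) / g0
    positivity
  refine ⟨Ψ p1, Ψ p2, |Real.log A1| + |Real.log A2| + 1, 1, hpos, by positivity, ?_⟩
  intro L hL d hd
  have hL0 : 0 < L := by linarith
  set v : ℝ := (d : ℝ) / Real.exp L with hv
  obtain ⟨h1, h2⟩ := hA v hd
  have hv0 : 0 < v := lt_of_lt_of_le hA1 h1
  have hdv : (d : ℝ) = v * Real.exp L := by
    rw [hv]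
    field_simp
  have hlog : Real.log d = Real.log v + L := by
    rw [hdv, Real.log_mul hv0.ne' (Real.exp_pos L).ne', Real.log_exp]
  constructor
  · unfold be
    rw [hlog, add_sub_cancel_right, abs_div, abs_of_pos (by positivity : 0 < 2 * L)]
    have h3 : Real.log A1 ≤ Real.log v := Real.log_le_log hA1 h1
    have h4 : Real.log v ≤ Real.log A2 := Real.log_le_log hv0 h2
    have h5 : |Real.log v| ≤ |Real.log A1| + |Real.log A2| + 1 := by
      rw [abs_le]
      constructor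
      · linarith [neg_abs_le (Real.log A1), abs_nonneg (Real.log A2)]
      · linarith [le_abs_self (Real.log A2), abs_nonneg (Real.log A1)]
    rw [div_le_div_iff₀ (by positivity) hL0]
    have h6 := mul_le_mul_of_nonneg_right h5 hL0.le
    have h7 : 0 ≤ (|Real.log A1| + |Real.log A2| + 1) * L := by positivity
    linarith
  · intro x hx hx2
    have hs0 : 0 ≤ x / L := by positivity
    have hs1 : x / L ≤ 1 / 2 := by
      rw [div_le_iff₀ hL0]
      linarith
    have hmem : (v, x / L) ∈ Set.Icc A1 A2 ×ˢ Set.Icc (0 : ℝ) (1 / 2) := ⟨⟨h1, h2⟩, ⟨hs0, hs1⟩⟩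
    have hKd : Kd L d x = Ψ (v, x / L) := by
      unfold Kd
      show _ = (8 * v) ^ (x / L / 2) * gm (1 / 2 + x / L) / g0
      have e1 : (8 * (d : ℝ)) ^ (x / (2 * L)) = (8 * v) ^ (x / L / 2) * Real.exp (x / 2) := by
        have e2 : 8 * (d : ℝ) = (8 * v) * Real.exp L := by rw [hdv]; ring
        rw [e2, Real.mul_rpow (by positivity) (Real.exp_pos L).le, ← Real.exp_mul]
        congr 2
        · rw [div_div, mul_comm L 2]
        · field_simp
      rw [e1]
      have e3 : Real.exp (-(x / 2)) * Real.exp (x / 2) = 1 := by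
        rw [← Real.exp_add, neg_add_cancel, Real.exp_zero]
      calc Real.exp (-(x / 2)) * ((8 * v) ^ (x / L / 2) * Real.exp (x / 2)) *
            gm (1 / 2 + x / L) / g0 =
          (Real.exp (-(x / 2)) * Real.exp (x / 2)) * ((8 * v) ^ (x / L / 2) *
            gm (1 / 2 + x / L) / g0) := by ring
        _ = _ := by rw [e3, one_mul]
    rw [hKd]
    exact ⟨hmin hmem, hmax hmem⟩

end H602RZ
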